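import Pool.Agent.Lib.MP_ab8df0_nt.B.Auto2
import Pool.Agent.Lib.MP_ab8df0_nt.P.N1D

/-! Constants, proof tree and the result of the computation. -/

set_option maxRecDepth 100000

namespace Pool.Agent.Lib.MP_ab8df0_nt.T.B61b

open Pool.Agent.Lib.MP_ab8df0_nt.B Pool.Agent.Lib.MP_ab8df0_nt.P

def vs : Cs := [([0, 1], 1), ([], 1), ([], 1), ([], 1), ([], 1), ([], 1), ([], 1), ([], 1), ([], 1), ([], 1), ([], 1), 
  ([2, 0, 0, 0, 0, 1], 2),
  ([40, -120, 40, 20, 60, -80, 110, 0, -60, 60, -25, 45, -5, -25, 20], 2),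
  ([-460, -400, -700, 520, 980, -660, 580, 2000, -840, -1940, 1910, 1270, -1235, -80, 420], 4),
  ([-40, 120, -40, -20, -60, 80, -110, 0, 60, -60, 25, -45, 5, 25, -20], 1),
  ([-1840, -1600, -2800, 2080, 3920, -2640, 2320, 8000, -3360, -7760, 7640, 5080, -4940, -320, 1680], 1),
  ([2], 1),
  ([16, 0, -136, 0, 0, 8, 0, -56, 0, 0, 4, 0, -10], 1),
  ([-256, -256, 1024, 1024, 0, -128, -128, 416, 416, 0, -16, -16, 64, 64], 1),
  ([0, 0, 0, 0, 32, 0, 0, 0, 0, 12, 0, 0, 0, 0, 2], 1),
  ([-16, 0, 0, 0, 32, 0, 0, 0, 0, 12, 0, 0, 0, 0, 2], 1),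
  ([24576, -15360, -61440, -15360, 47616, 12288, -1536, -26112, -7680, 20736, 1536, 0, -3840, -1536, 3072], 1),
  ([15360, 0, 0, -7680, 0, 6144, 0, 0, -3072, 0, 768, 0, 0, -384], 1),
  ([-1], 1),
  ([16, 0, 0, 40, 0, 0, 0, 0, 16, 0, 0, 0, 0, 2], 1),
  ([-12288, 0, 9216, 55296, 21504, -6144, 0, 9216, 27648, 6144, -3072, 0, 2304, 4608, 768], 1),
  ([31, 0, 0, 0, 0, 13, 0, 0, 0, 0, 2], 1),
  ([-18432, 129024, 119808, -82944, -216576, -9216, 55296, 55296, -32256, -89856, 0, 9216, 9216, -4608, -13824], 1),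
  ([16, 0, -56, 0, 40, 8, 0, -16, 0, 20, 4, 0, -2, 0, 4], 1),
  ([64, 64, 0, 0, 0, 32, 32, 0, 0, 0, 4, 4], 1),
  ([3096576, 2064384, -884736, -5308416, -1105920, 1327104, 884736, -294912, -2211840, -479232, 221184, 147456, -36864, -331776, -73728], 1),
  ([-4, 0, 12, 0, 0, 0, 0, 6, 0, 0, 0, 0, 1], 1),
  ([0, 0, 0, 1920, 0, 0, 0, 0, 768, 0, 0, 0, 0, 96], 1),
  ([24, -72, 24, 12, 36, -48, 66, 0, -36, 36, -15, 27, -3, -15, 12], 4),
  ([40, -120, 40, 20, 60, -80, 110, 0, -60, 60, -25, 45, -5, -25, 20], 4),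
  ([-464527161000, -1012083637640, 1080054866920, -79475356260, 373940689700, 829173186320, 633434436810, -542448980720, -308122832780, 821716916820, 362964383885, -9567689425, -175918019415, 25087253665, 171391557940], 49165824972),
  ([-616365958956264280, -64736487216183080, 417555558123829600, -254409499315423940, 21996168115764620, 962619666391615460, 278008321131835520, -569096567028465620, -131931759106057700, 469929369976525840, 376365106225661210, -133695849301679650, -152241036714016390, 95710777335605965, 72241017717300895], 1573527645316374),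
  ([0, 0, 48, 0, 0, 0, 0, 20, 0, 0, 0, 0, 3], 4),
  ([-613, 0, 0, 0, 0, -260, 0, 0, 0, 0, -40], 3),
  ([237850, -3448, -32528, 78080, 4132, 260960, 18532, 51860, 38356, -7060, 39040, 2066, 20827, 6680, 1534], 384054)]

def c0 : EC := ⟨12, 13, 14, 15, [16, 17, 18, 19, 20, 21, 22, 23, 24, 25, 26, 27], [16, 28, 29, 19, 20, 30, 31, 32, 24, 25, 26, 27]⟩

def M (t0 : ℤ) (k0 : ℕ) : List Hyp := [
  .disc 1 t0 k0,
  .eq 2 (.add (.mul (.num 2) (.inv (.add (.num 1) (.mul (.var 1) (.var 11))))) (.neg (.num 1))),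
  .pw 3 2 (.add (.num 1) (.mul (.num 3) (.sq (.var 2)))),
  .cls (.mul (.add (.var 3) (.neg (.num 1))) (.var 33)) [],
  .eq 4 (.add (.num 1) (.mul (.num 2) (.inv (.add (.var 3) (.neg (.num 1)))))),
  .eq 5 (.mul (.var 34) (.sq (.var 4))),
  .on c0 false 5 6,
  .lin 7 (.mul (.add (.num 1) (.mul (.var 1) (.var 11))) (.add (.num 5) (.mul (.num (-4)) (.var 11)))) (.mul (.num (-2)) (.var 11)),
  .lin 8 (.add (.sq (.sq (.var 3))) (.mul (.var 37) (.add (.mul (.var 3) (.sq (.var 3))) (.mul (.var 37) (.add (.sq (.var 3)) (.mul (.var 37) (.add (.var 3) (.var 37)))))))) (.mul (.num 3) (.mul (.add (.var 2) (.var 38)) (.var 7))),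
  .lin 9 (.mul (.add (.var 3) (.neg (.num 1))) (.add (.var 37) (.neg (.num 1)))) (.mul (.num (-2)) (.var 8)),
  .eq 10 (.mul (.var 34) (.mul (.add (.var 4) (.var 39)) (.var 9))),
  .dq 5 35 1 (-4) 5 10]

def k0 : Cut := ⟨[], [0], [[false, false, false, false, false, true, false, false, false, false, false, false, false]], [[false, false, true, false, false, false, false, false, false, false, false, false, false], [false, false, true, false, false, false, false, false, false, true, false, false, false], [false, false, true, false, false, true, false, false, true, false, false, false, false], [false, true, false, false, false, false, false, false, false, false, false, false, false], [false, false, false, true, false, false, false, false, false, false, false, false, false], [false, false, false, true, false, false, false, false, false, true, false, true, false], [false, true, false, false, false, true, false, true, false, false, false, false, false], [true, false,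 false, false, false, false, false, false, false, false, false, false, false], [false, false, false, false, true, false, false, false, false, false, false, false, false], [true, false, false, false, true, false, false, true, false, false, false, false, true], [false, false, false, false, false, false, true, false, false, false, false, false, false], [false, false, true, false, false, false, false, false, true, false, true, true, false]], [[false, false, false, false, false, false, false, false, true, false, false, false, false], [false, false, false, false, true, false, false, false, false, false, false, false, false], [false, true, false, false, false, false, false, false, false, false, false, false, false], [false, false, false, false, false, true, false, false, false, false, false, false, false], [false, false, false, false, false, false, false, false, false, true, false, false, false], [true, false, false, false, false, false, false, false, false, false,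 false, false, false], [false, false, false, false, false, false, false, false, false, false, false, true, false], [true, false, false, false, true, false, false, true, false, false, false, false, false], [true, true, false, true, false, false, false, false, false, false, false, false, false], [false, true, true, false, false, false, false, false, false, false, false, false, false], [true, true, true, true, false, true, true, false, false, false, false, false, true], [false, true, true, false, false, true, true, false, false, false, false, false, false], [true, false, false, false, true, false, false, true, true, true, true, false, false]]⟩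

def k1 : Cut := ⟨[0], [], [[true, false, false, false, false, false, false, false, false, false, false, false, false]], [[false, false, true, false, false, false, false, false, false, false, false, false, false], [false, false, true, false, false, false, false, false, false, false, true, false, false], [false, false, true, false, false, false, false, false, true, false, false, false, false], [false, true, false, false, false, false, false, false, false, false, false, false, false], [false, false, false, true, false, false, false, false, false, false, false, false, false], [true, false, true, true, false, false, false, false, true, true, true, false, false], [false, false, false, false, false, true, false, false, false, false, false, false, false], [false, true, false, false, false, false, false, true, false, false, false, false, false], [false, false, false, false, true, false, false, false, false, false, false, false, false], [true, false, false, false,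 true, false, false, true, false, false, false, false, true], [false, false, false, false, false, false, true, false, false, false, false, false, false], [false, false, true, false, false, false, false, false, true, false, true, true, false]], [[true, false, false, false, false, false, false, false, false, false, false, false, false], [false, false, false, false, true, false, false, false, false, false, false, false, false], [false, true, false, false, false, false, false, false, false, false, false, false, false], [false, false, false, false, false, true, false, false, false, false, false, false, false], [false, false, false, false, false, false, false, false, false, true, false, false, false], [false, false, false, false, false, false, false, true, false, false, false, false, false], [false, false, false, false, false, false, false, false, false, false, false, true, false], [false, false, false, false, true, false, false, false, true, false, false, false,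 false], [false, true, false, true, false, false, false, false, false, false, false, false, false], [true, true, true, true, false, true, true, false, false, false, false, false, false], [false, true, true, false, false, false, false, false, false, false, false, false, false], [false, true, true, true, false, false, false, false, false, false, false, false, true], [true, false, false, false, true, false, false, false, true, true, true, false, false]]⟩

def A : List AH := [
  .ec c0 6 ([-275764, -54240, 99124, 142200, 101516, 444748, 57332, -193552, -249532, -166792, 164918, 90434, 5533, -46180, -54792], 60) ([-275764, -54240, 99124, 142200, 101516, 444748, 57332, -193552, -249532, -166792, 164918, 90434, 5533, -46180, -54792], 960) k0 k1,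
  .on c0 false 35 36]

theorem auto : (baseOk 10 vs && A.all (AH.ok FDN1 10 vs)) = true := by decide +kernel

def r0_1 : Tree := .fin 52 59 60 [[ce 1 136 4 15 0x8a8dc066e48266a]] (.newt 64 [[ce (-2) 136 5 15 0x95634351b41c4151dc, ce 1 136 3 14 0x16426b82022]] (.set 63 [[]] (.half 52 61 55 [ce 0 136 5 14 0x29cea09eb5b0cb4bc2] (ce (-1) 136 5 15 0x5f1b7a729c48c132946) (.fin 52 61 65 [[ce 0 136 4 15 0x82c5486ee402eea]] (.newt 69 [[ce (-2) 136 5 15 0xb5eb6059723d4911c4, ce 1 136 3 15 0x136426b82022]] (.set 68 [[]] (.half 52 66 54 [ce 0 136 5 15 0x71906a28a5581c52aca] (ce (-1) 136 5 15 0x4c9fc94a141b5596ada) (.fin 52 66 70 [[ce 0 136 4 14 0x28508a26c86eea]] (.newt 74 [[ce 0 136 5 15 0x942b1155b72dc553d8, ce (-1) 136 3 15 0x1924063a2022]] (.set 73 [[]] (.half 52 71 55 [ce (-1) 136 5 15 0x50827b2ca81a0cd3856] (ce 0 136 5 15 0x6cdbbe76120813923c4) (.fin 52 71 75 [[ce (-1) 136 4 15 0xc2ab0660640eaa6]] (.newt 79 [[ce 0 136 5 15 0x32d46264e07299c7b49, ce (-1) 136 3 15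 0x1a2126b92c06]] (.set 78 [[]] (.half 52 76 54 [ce 0 136 5 15 0xe266a4b047c7991e07] (ce 0 136 5 15 0x6cc3eee85a11e2f249b) (.fin 52 76 80 [[ce 0 136 4 15 0x116f390ad7b298b]] (.newt 84 [[ce 2 136 5 15 0x2c76c1194c0f1452e0b, ce (-3) 136 3 15 0x11cb008840a4]] (.set 83 [[]] (.edead 52 81 55 [false, false, false, false, false, false, false, false, false, false, false, false] [ce (-1) 136 5 15 0x20b3106958e80d26cf7])))))))))))))))))))

def r0_3 : Tree := .set 49 [[ce 0 136 8 15 0x8cd00304c0aa807026e05c9028f809]] (.set 50 [[]] (.dent 57 53 51 true [[ce (-3) 136 4 15 0xcacb6e1de31ca03]] [[ce 0 136 14 14 0x2800800c0008008000c0088000008002800e0014004002001]] [[ce 0 136 12 14 0xd80a00800400000d00e80000000c00200100800001]] (.deep 52 54 55 59 60 40 4 [123] [] [] (.pnil 62) (.pnil 62) (.set 61 [[]] (.set 62 [[]] (.set 63 [[]] (.set 64 [[ce (-8) 136 5 15 0x495af0045f00d0110c0]] (.set 65 [[ce (-4) 136 4 15 0xb8171dfa2032ee0]] (.half 52 66 54 [ce 3 136 5 15 0x3816fb39ac3a1c16ad6]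 (ce (-4) 136 5 15 0x5493eeee1b7b8d36a50) (.fin 52 66 67 [[ce 3 136 4 15 0x2a61c4ac684aa2e]] (.newt 71 [[ce (-6) 136 5 15 0xb4af4155f40d0150c0, ce 5 136 3 15 0x1b6406382822]] (.set 70 [[]] (.half 52 68 55 [ce 2 136 5 15 0x1b023b08ac7a04549c6] (ce (-3) 136 5 15 0x761709f7133b0df0a40) (.fin 52 68 72 [[ce 2 136 4 15 0x22a9ccac68c22ae]] (.newt 76 [[ce (-6) 136 5 15 0x494af0245f00d0110c0, ce 5 136 3 15 0x96c06382822]] (.set 75 [[]] (.half 52 73 54 [ce 2 136 5 15 0x7a0e7b19ac3a0c928d6] (ce (-3) 136 5 15 0x579ba8fe1b3a8db2a50) (.fin 52 73 77 [[ce 2 136 4 15 0x2ae1c4ac684aa2e]] (.newt 81 [[ce (-4) 136 5 15 0xb4af4355f40d0150c0, ce 3 136 3 15 0x92406382822]] (.set 80 [[]] (.half 52 78 55 [ce 1 136 5 15 0x591abb28ac7a14d0bc6] (ce (-2) 136 5 15 0x351f4bc7137a0d74a40) (.fin 52 78 82 [[ce 1 136 4 15 0x2229ccac68c22ae]] (.newt 86 [[ce (-4) 136 5 15 0x494af0045f00d0110c0, ce 3 136 3 15 0x1b2c06382822]] (.set 85 [[]] (.half 52 83 54 [ce 1 136 5 15 0x7806ff38a43a1c96ad6] (ce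 (-2) 136 5 15 0x5483aace13399db6840) (.fin 52 83 87 [[ce 1 136 4 15 0x2a61c4ac684aa2e]] (.newt 91 [[ce (-2) 136 5 15 0xb5af0145f00d0150d0, ce 1 136 3 15 0xb6406382822]] (.set 90 [[]] (.half 52 88 55 [ce 0 136 5 15 0x79123d2920780490bc6] (ce (-1) 136 5 15 0x770f69f61f1915b4948) (.fin 52 88 92 [[ce 0 136 4 15 0xa2a94c2468ca2ae]] (.newt 96 [[ce (-2) 136 5 15 0x49427624db62c0910d8, ce 1 136 3 15 0xb2c06382822]] (.set 95 [[]] (.half 52 93 54 [ce 0 136 5 15 0x190ef9086a7b0cf68de] (ce (-1) 136 5 15 0x160fbeee950899d4acc) (.fin 52 93 97 [[ce 0 136 4 15 0x6a610c6068ce2ae]] (.newt 101 [[ce 0 136 5 15 0xb4675349f31c8552cc, ce (-1) 136 3 14 0x36c26ba2822]] (.set 100 [[]] (.half 52 98 55 [ce (-1) 136 5 15 0x698ca8142b3b8c9394a] (ce 0 136 5 15 0x4e052a76b50ac1541c2) (.fin 52 98 102 [[ce (-1) 136 4 15 0x6e0dc62a2c462ae]] (.newt 106 [[ce 0 136 5 15 0x99c977896095790895, ce (-1) 136 3 15 0x122902fb6c02]] (.set 105 [[]] (.tr 103 [[ce 0 136 5 15 0x2b173259425b1de1955]] (.half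 52 107 54 [ce 0 136 5 15 0x6c96b36f8446bd86cd5] (ce 0 136 5 15 0x46fa2f9506162e1f4f) (.fin 52 107 108 [[ce 0 136 4 15 0x90825106f55452d]] (.newt 112 [[ce 2 136 5 15 0x5cbf361c1238d794dcb, ce (-3) 136 3 15 0x188f001849a4]] (.set 111 [[]] (.edead 52 109 55 [false, false, false, false, false, false, false, false, false, false, false, false] [ce (-1) 136 5 15 0x1de2d10299e55caa3fd]))))))))))))))))))))))))))))))))))))))))))))))

def r0_2 : Tree := .set 41 [[ce 0 136 6 11 0x8000000700000029]] (.oroot 42 [[]] [(ce 0 136 6 12 0x98000000d000000100, ce (-2) 136 6 11 0x8000000b00000009)] (.set 44 [[ce 0 136 6 15 0x347bb4a09a4c0fc04d88b0b]] (.set 45 [[]] (.split 40 (.set 41 [[ce 0 136 7 11 0x200000000e000000069]] (.oroot 42 [[]] [(ce 0 136 7 12 0xcc0000000340000000200, ce (-2) 136 7 11 0x12000000016000000049)] (.set 44 [[ce 0 136 7 15 0x1d2f7ba583324603d804ec2164b]] (.set 45 [[]] (.yrt 46 [] (ce 2 136 5 15 0x2beb2dd02bf96be61d3) (.split 40 (.set 41 [[ce 0 136 8 11 0x88000000009c0000000069]]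 (.oroot 42 [[]] [(ce 0 136 8 12 0xe6000000000d000000000400, ce (-2) 136 8 11 0x4800000000ac00000000c9)] (.set 44 [[ce 0 136 8 15 0x745efb52e0e624b08f3084f6082ccb]] (.set 45 [[]] (.newt 57 [[ce 2 136 5 15 0x797f6fd0e3abfba415b, ce (-3) 136 3 15 0x13628730d9b7]] (.add 57 53 false [[ce (-6) 136 5 15 0x1f03c469e352db6314c]] (.half 52 59 54 [ce 2 136 5 15 0x6802f909263b14d4bce] (ce (-3) 136 5 15 0x5d95985b73690b978dc) (.fin 52 59 60 [[ce 2 136 4 15 0xa66744e0a046e6a]] (.newt 64 [[ce (-4) 136 5 15 0x6b52f634d742d8952d0, ce 3 136 3 15 0x192c06382822]] (.set 63 [[]] (.half 52 61 55 [ce 1 136 5 15 0x4b0e3918267b1c12ade] (ce (-2) 136 5 15 0x3c01f9537b698bd5acc) (.fin 52 61 65 [[ce 1 136 4 15 0xae2f4ce0a0ce6ea]] (.newt 69 [[ce (-4) 136 5 15 0x2952f205d702d8912d0, ce 3 136 3 15 0x96406382822]] (.set 68 [[]] (.half 52 66 54 [ce 1 136 5 15 0x6a1a7d282e3b04d09ce] (ce (-2) 136 5 15 0x5c8d9e4b7b6a1b93acc) (.fin 52 66 70 [[ce 1 136 4 15 0xa6e744e0a046e6a]] (.newt 74 [[ce (-2)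 136 5 15 0x6b42f215d702d8952c0, ce 1 136 3 15 0x1b6c06382822]] (.set 73 [[]] (.half 52 71 55 [ce 0 136 5 15 0x6b06bb18aa790cd2ade] (ce (-1) 136 5 15 0x3c11db62774a8395bc4) (.fin 52 71 75 [[ce 0 136 4 15 0x2eafcc68a0c66ea]] (.newt 79 [[ce (-2) 136 5 15 0x294a70245360c8112c8, ce 1 136 3 15 0x196406382822]] (.set 78 [[]] (.half 52 76 54 [ce 0 136 5 15 0x4b027f39e4781430bd6] (ce (-1) 136 5 15 0x3c190e6bfd591ff5a40) (.fin 52 76 80 [[ce 0 136 4 15 0xe6e70c2ca0c26ea]] (.newt 84 [[ce 0 136 5 15 0x6b4e77341733d0d50dc, ce (-1) 136 3 15 0x112426ba2822]] (.set 83 [[]] (.half 52 81 55 [ce (-1) 136 5 15 0x5a906e24257b8411a52] (ce 0 136 5 15 0x3e95895e3f6a49163ce) (.fin 52 81 85 [[ce (-1) 136 4 15 0x2e4dce262ccea26]] (.newt 89 [[ce 0 136 5 14 0x1c8827ca56305e2b45, ce (-1) 136 3 14 0x22106292406]] (.set 88 [[]] (.half 52 86 54 [ce 0 136 5 15 0x2d4e807ece25ad87d5d] (ce 0 136 5 15 0x25afd4c0d803e223ccb) (.fin 52 86 90 [[ce 0 136 4 15 0x1e801dc6fdd49ed]] (.newt 94 [[ce 2 136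 5 15 0x77be35208f5e10c1c1b, ce (-3) 136 3 15 0xb83000848a4]] (.set 93 [[]] (.edead 52 91 55 [false, false, false, false, false, false, false, false, false, false, false, false] [ce (-1) 136 5 15 0x20b3106958e80d26cf7]))))))))))))))))))))))))))))))))))) (.set 41 [[ce 0 136 8 11 0xe8000000000c0000000009]] (.oroot 42 [[]] [(ce 0 136 8 12 0xf600000000ad000000000400, ce (-2) 136 8 11 0x28000000005c00000000e9)] (.set 44 [[ce 0 136 8 15 0x745e7bc260e6c430eff084f6482c4b]] (.set 45 [[]] (.newt 57 [[ce 2 136 5 15 0x796f2fd0e3ebfb2034b, ce (-3) 136 3 15 0x136a8730d9b7]] (.add 57 53 false [[ce (-6) 136 5 15 0x650d43d92d3155a52d4]] (.half 52 59 54 [ce 2 136 5 15 0xa1ab90822790454bce] (ce (-3) 136 5 15 0x24832bc7191a0d70b4c) (.fin 52 59 60 [[ce 2 136 4 15 0xea21cc2860ca2a6]] (.newt 64 [[ce (-4) 136 5 15 0x2b42f234d742c8952d0, ce 3 136 3 15 0x1b6406382822]] (.set 63 [[]] (.half 52 61 55 [ce 1 136 5 15 0x6906f91922390c92ade] (ce (-2) 136 5 15 0x4617cacf11198d3295c) (.fin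 52 61 65 [[ce 1 136 4 15 0xe269c4286042a26]] (.newt 69 [[ce (-4) 136 5 15 0x6942f605d702c8912d0, ce 3 136 3 15 0xb2c06382822]] (.set 68 [[]] (.half 52 66 54 [ce 1 136 5 15 0x8123d292a7914509ce] (ce (-2) 136 5 15 0x258b2dd711191d7495c) (.fin 52 66 70 [[ce 1 136 4 15 0xeaa1cc2860ca2a6]] (.newt 74 [[ce (-2) 136 5 15 0x2b52f615d702c8952c0, ce 1 136 3 15 0x192406382822]] (.set 73 [[]] (.half 52 71 55 [ce 0 136 5 15 0x91e7b19a63b1c52ade] (ce (-1) 136 5 15 0x4607e8fe15389572844) (.fin 52 71 75 [[ce 0 136 4 15 0x62e944a0604aa26]] (.newt 79 [[ce (-2) 136 5 15 0x695a74245360d8112c8, ce 1 136 3 15 0x1b2c06382822]] (.set 78 [[]] (.half 52 76 54 [ce 0 136 5 15 0x691a3f38e03a04b0bd6] (ce (-1) 136 5 15 0x40f3df6972a19129c8) (.fin 52 76 80 [[ce 0 136 4 15 0xaaa104ec604ea26]] (.newt 84 [[ce 0 136 5 15 0x2b5e73341733c0d50dc, ce (-1) 136 3 15 0x136c26ba2822]] (.set 83 [[]] (.half 52 81 55 [ce (-1) 136 5 15 0x3a982e04293b9411a52] (ce 0 136 5 15 0x3f9d097fbb6941121d6) (.fin 52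 81 85 [[ce (-1) 136 4 15 0xaec5ce2e2ccea26]] (.newt 89 [[ce 0 136 5 15 0x498cf7699e2b4716a95, ce (-1) 136 3 14 0x26102fb6c02]] (.set 88 [[]] (.tr 86 [[ce 0 136 5 15 0x2b175049423b1567945]] (.half 52 90 54 [ce 0 136 5 15 0x4dd6205e4644b507c55] (ce 0 136 5 15 0x4737f2f05041f225dcb) (.fin 52 90 91 [[ce 0 136 4 15 0x9a841d467554965]] (.newt 95 [[ce 2 136 5 15 0x7d2f341c105adf92fd3, ce (-3) 136 3 15 0x188f001849a4]] (.set 94 [[]] (.edead 52 92 55 [false, false, false, false, false, false, false, false, false, false, false, false] [ce (-1) 136 5 15 0x1de2d10299e55caa3fd])))))))))))))))))))))))))))))))))))))))))) (.set 41 [[ce 0 136 7 11 0x1e00000002a000000039]] (.oroot 42 [[]] [(ce 0 136 7 12 0xdc0000001740000000200, ce (-2) 136 7 11 0x1e000000002000000059)] (.set 44 [[ce 0 136 7 15 0x1d2f3b1483374e0fc804eca160b]] (.set 45 [[]] (.yrt 46 [] (ce 2 136 5 15 0x6bf389f0239b7b200cb) (.split 40 (.set 41 [[ce 0 136 8 11 0xf8000000005400000000b9]] (.oroot 42 [[]] [(ce 0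 136 7 12 0xdc0000001740000000200, ce (-2) 136 8 11 0xf8000000008400000000d9)] (.set 44 [[ce 0 136 8 15 0xf4de3b8aa0e674f0bf9084f6a82c0b]] (.set 45 [[]] (.newt 57 [[ce 2 136 5 15 0x3977cbf0ebc9ebe6053, ce (-3) 136 3 15 0x136a8730d9b7]] (.set 47 [[ce 0 136 8 6 0x800000000bd]] (.set 48 [[ce (-2) 136 8 12 0xa000000008100000000f400]] (.set 49 [[ce 0 136 8 15 0xccd043b440aac03006205c9048f889]] (.set 50 [[]] (.dent 57 53 51 true [[ce (-3) 136 4 15 0x4247e69de39428b]] [[ce 0 136 14 14 0x8000000000000000000008000000000000000000000000001]] [[ce 0 136 12 14 0x800000000000000000800000000000000000000001]] (.deep 52 54 55 59 60 40 4 [123] [] [] (.pnil 62) (.pnil 62) (.set 61 [[]] (.set 62 [[]] (.set 63 [[]] (.set 64 [[ce (-8) 136 5 15 0x94af4045f00c0110c0]] (.set 65 [[ce (-4) 136 4 15 0xb89f1d7228b2ee8]] (.half 52 66 54 [ce 3 136 5 15 0x5a1e3b38a0780c96ad6] (ce (-4) 136 5 15 0x548b2aef97789536a48) (.fin 52 66 67 [[ce 3 136 4 15 0xaae9c4a4684aa2e]] (.newt 71 [[ce (-6) 136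 5 15 0x4b5af0155f40c0150c0, ce 5 136 3 15 0xb6406382822]] (.set 70 [[]] (.half 52 68 55 [ce 2 136 5 15 0x390a7b09a03814d49c6] (ce (-3) 136 5 15 0x760f4df69f3815f0a58) (.fin 52 68 72 [[ce 2 136 4 15 0xa221cca468c22ae]] (.newt 76 [[ce (-6) 136 5 15 0x95af4245f00c0110c0, ce 5 136 3 15 0x196c06382822]] (.set 75 [[]] (.half 52 73 54 [ce 2 136 5 15 0x1816bb18a0781c128d6] (ce (-3) 136 5 15 0x5793ecff973b95b2a48) (.fin 52 73 77 [[ce 2 136 4 15 0xaa69c4a4684aa2e]] (.newt 81 [[ce (-4) 136 5 15 0x4b5af0355f40c0150c0, ce 3 136 3 15 0x192406382822]] (.set 80 [[]] (.half 52 78 55 [ce 1 136 5 15 0x7b02fb29a0380450bc6] (ce (-2) 136 5 15 0x35178fc69f7b1574a58) (.fin 52 78 82 [[ce 1 136 4 15 0xa2a1cca468c22ae]] (.newt 86 [[ce (-4) 136 5 15 0x95af4045f00c0110c0, ce 3 136 3 15 0xb2c06382822]] (.set 85 [[]] (.half 52 83 54 [ce 1 136 5 15 0x1a0e3f39a8780c16ad6] (ce (-2) 136 5 15 0x549beecf9f3a85b6858) (.fin 52 83 87 [[ce 1 136 4 15 0xaae9c4a4684aa2e]] (.newt 91 [[ce (-2) 136 5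 15 0x4b4af4145f00c0150d0, ce 1 136 3 15 0x1b6406382822]] (.set 90 [[]] (.half 52 88 55 [ce 0 136 5 15 0x1b1a7d28243a1410bc6] (ce (-1) 136 5 15 0x7707adf79b1a1db4940) (.fin 52 88 92 [[ce 0 136 4 15 0x22214c2c68ca2ae]] (.newt 96 [[ce (-2) 136 5 15 0x9527224db62d0910d8, ce 1 136 3 15 0x1b2c06382822]] (.set 95 [[]] (.half 52 93 54 [ce 0 136 5 15 0x3b1639096e391c768de] (ce (-1) 136 5 15 0x54177aee190981d4ac4) (.fin 52 93 97 [[ce 0 136 4 15 0xeae90c6868ce2ae]] (.newt 101 [[ce 0 136 5 15 0x4b5671349f31d8552cc, ce (-1) 136 3 15 0x136c26ba2822]] (.set 100 [[]] (.half 52 98 55 [ce (-1) 136 5 15 0x4984e834277b9c9394a] (ce 0 136 5 15 0x4f0daa77310bc9503da) (.fin 52 98 102 [[ce (-1) 136 4 15 0xee85c6222c462ae]] (.newt 106 [[ce 0 136 5 15 0xb9c53599e494794885, ce (-1) 136 3 15 0x122902fb6c02]] (.set 105 [[]] (.tr 103 [[ce 0 136 5 15 0x290772794a1b1de5945]] (.half 52 107 54 [ce 0 136 5 15 0xc1e974f0465a502ddd] (ce 0 136 5 15 0x24e704c9d82162e3e4f) (.fin 52 107 108 [[ce 0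 136 4 15 0x148e51867dd45a5]] (.newt 112 [[ce 2 136 5 15 0x5dbff21c1e78c710dcb, ce (-3) 136 3 15 0x188f001849a4]] (.set 111 [[]] (.edead 52 109 55 [false, false, false, false, false, false, false, false, false, false, false, false] [ce (-1) 136 5 15 0x1de2d10299e55caa3fd])))))))))))))))))))))))))))))))))))))))))))))))))))))) (.set 41 [[ce 0 136 8 11 0x5800000000c40000000059]] (.oroot 42 [[]] [(ce 0 136 8 12 0x7e00000000fd000000000400, ce (-2) 136 8 11 0xd8000000003400000000f9)] (.set 44 [[ce 0 136 8 15 0xf4debbfa20e614701f5084f6e82c8b]] (.set 45 [[]] (.newt 57 [[ce 2 136 5 15 0x39678bf0eb89eb62243, ce (-3) 136 3 15 0x13628730d9b7]] (.set 47 [[ce 0 136 8 11 0xa000000000b800000000dd]] (.set 48 [[ce (-2) 136 8 12 0x6a000000004100000000f400]] r0_3)))))))))))))))))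

def r0_0 : Tree := .set 11 [[ce (-1) 136 1 1 0x1]] (.set 12 [[ce (-1) 136 1 1 0x1]] (.set 13 [[ce (-2) 136 1 1 0x1]] (.set 14 [[]] (.set 15 [[]] (.set 16 [[]] (.set 17 [[]] (.set 18 [[]] (.set 19 [[]] (.set 20 [[]] (.set 21 [[]] (.set 22 [[]] (.set 23 [[]] (.set 24 [[]] (.set 25 [[]] (.set 26 [[]] (.set 27 [[]] (.set 28 [[]] (.set 29 [[]] (.set 30 [[]] (.set 31 [[]] (.set 32 [[]] (.set 33 [[ce (-2) 136 1 1 0x1]] (.set 34 [[ce (-2) 136 1 1 0x1]] (.set 35 [[ce (-2) 136 64 1 0xb1f2ea923786bc3b]] (.set 36 [[ce (-1) 136 63 1 0x796bf4e4aa876523]] (.set 37 [[ce (-2) 136 1 1 0x1]] (.set 38 [[ce 0 136 64 1 0xaaaaaaaaaaaaaaab]] (.set 39 [[ce (-1) 136 63 1 0x7a9d095d878e3c13]] (.piv [16, 17, 18, 19, 20, 21, 22, 23, 24, 25, 26, 27] [[ce 0 136 1 0 0x0], [ce (-2) 136 1 1 0x1], [ce (-3) 136 1 1 0x1], [ce (-3) 136 1 15 0x4000], [ce (-2) 136 5 15 0x7e1f8727c9f3f0fc3f], [ce (-6) 136 5 15 0x4d9a7528a832d8a690c], [ce (-6) 136 5 15 0x72f6228529790e52254], [ce 0 136 1 1 0x1],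 [ce (-2) 136 5 15 0x68ff995a918d8b43403], [ce (-6) 136 5 15 0x77a3a9ccce98cce2858], [ce 0 136 5 11 0x5c000024000009], [ce (-6) 136 5 15 0x178c139d6a3890b12d0]] (.piv [16, 28, 29, 19, 20, 30, 31, 32, 24, 25, 26, 27] [[ce 0 136 1 0 0x0], [ce (-2) 136 1 1 0x1], [ce (-2) 136 1 1 0x1], [ce (-3) 136 1 15 0x4000], [ce (-2) 136 5 15 0x7e1f8727c9f3f0fc3f], [ce (-7) 136 5 15 0x74178e9f278bedd472b], [ce (-1) 136 5 15 0x50d366ab0a2e0c2e29b], [ce (-5) 136 5 14 0x200001a00000f0000], [ce (-2) 136 5 15 0x68ff995a918d8b43403], [ce (-6) 136 5 15 0x77a3a9ccce98cce2858], [ce 0 136 5 11 0x5c000024000009], [ce (-6) 136 5 15 0x178c139d6a3890b12d0]] (.piv [] [] (.disc 40 (.set 41 [[ce 0 136 1 1 0x1]] (.oroot 42 [[]] [(ce 0 136 3 12 0x400140020, ce (-2) 136 1 1 0x1)] (.split 40 (.set 41 [[ce 0 136 1 1 0x1]] (.oroot 42 [[]] [(ce 0 136 3 12 0x400140020, ce (-2) 136 1 1 0x1)] (.split 40 (.set 41 [[ce 0 136 1 1 0x1]] (.oroot 42 [[]] [(ce 0 136 3 12 0x400140020, ce (-2) 136 1 1 0x1)] (.set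 44 [[ce 0 136 5 15 0x53dbb00dc85c04b618b]] (.set 45 [[]] (.split 40 (.set 41 [[ce 0 136 1 1 0x1]] (.oroot 42 [[]] [(ce 0 136 6 12 0x880000025000000100, ce (-2) 136 1 1 0x1)] (.set 44 [[ce 0 136 6 15 0x34f9bd809bcc37004db8b2b]] (.set 45 [[]] (.split 40 (.set 41 [[ce 0 136 1 1 0x1]] (.oroot 42 [[]] [(ce 0 136 7 12 0x440000001940000000200, ce (-2) 136 7 11 0x10000000000000000001)] (.set 44 [[ce 0 136 7 15 0xd3f5b6c0333c61dc004ede162b]] (.set 45 [[]] (.yrt 46 [] (ce 2 136 5 15 0x39e31fe029cb7385047) (.split 40 (.set 41 [[ce 0 136 1 1 0x1]] (.oroot 42 [[]] [(ce 0 136 8 12 0x220000000065000000008400, ce (-2) 136 1 1 0x1)] (.set 44 [[ce 0 136 8 15 0xb4fe5bb600e6bcb077000476f82cab]] (.set 45 [[]] (.newt 57 [[ce 2 136 5 15 0x496fd9e1e1f9f3c71cf, ce (-3) 136 3 15 0x1127a3b09093]] (.add 57 53 false [[ce (-5) 136 6 15 0x1d23123333a0b4091904b94]] (.half 52 59 54 [ce 1 136 5 15 0x51944e38e1780c328c2] (ce (-2) 136 5 15 0x6685aaf63a1a4bd3ac6) (.fin 52 59 60 [[ce 1 136 4 15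 0xce4f48aea406aa6]] (.newt 64 [[ce (-2) 136 5 15 0x6b4e32341b41cc151dc, ce 1 136 3 14 0x36426b82022]] (.set 63 [[]] (.half 52 61 55 [ce 0 136 5 15 0x10880c29e57804b09c2] (ce (-1) 136 5 15 0x47112bceba3ad3d1ace) (.fin 52 61 65 [[ce 0 136 4 15 0xc607c0a6a486226]] (.newt 69 [[ce (-2) 136 5 15 0x6956b4049723dc911c4, ce 1 136 3 15 0x116426b82022]] (.set 68 [[]] (.half 52 66 54 [ce 0 136 5 15 0x439c8c08af7914568ca] (ce (-1) 136 5 15 0x349598d73e284f75b4a) (.fin 52 66 70 [[ce 0 136 4 15 0xc64700622c02226]] (.newt 74 [[ce 0 136 5 15 0x6b5ab7145b72c4553d8, ce (-1) 136 3 15 0xb24063a2022]] (.set 73 [[]] (.half 52 71 55 [ce (-1) 136 5 14 0x3969d3d267a1413a56] (ce 0 136 5 15 0x2e5f3a77d84997140d8) (.fin 52 71 75 [[ce (-1) 136 4 15 0x8a6f06e4e48eaa6]] (.newt 79 [[ce 0 136 5 15 0x7994b770133ad7b7985, ce (-1) 136 3 15 0xa61226b6402]] (.set 78 [[]] (.tr 76 [[ce 0 136 5 15 0x1a83945141698d02b41]] (.half 52 80 54 [ce 0 136 5 15 0x1f669c434a2dfd57e83] (ce 0 136 5 15 0xd87bdd11211eab1513)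 (.fin 52 80 81 [[ce 0 136 4 15 0x9f69b1ca93721cf]] (.newt 85 [[ce 2 136 5 15 0x54f3262c945b4724dd7, ce (-3) 136 3 15 0x12c7009841a4]] (.set 84 [[]] (.edead 52 82 55 [false, false, false, false, false, false, false, false, false, false, false, false] [ce (-1) 136 5 15 0x1de2d10299e55caa3fd])))))))))))))))))))))))))))) (.set 41 [[ce 0 136 8 11 0xe0000000007000000000a1]] (.oroot 42 [[]] [(ce 0 136 8 12 0x320000000005000000008400, ce (-2) 136 8 11 0x6000000000b00000000021)] (.set 44 [[ce 0 136 8 15 0xb4fedb2680e65c30d7c00476382c2b]] (.set 45 [[]] (.newt 57 [[ce 2 136 5 15 0x497f99e1e1b9f3433df, ce (-3) 136 3 15 0x112fa3b09093]] (.add 57 53 false [[ce (-5) 136 6 15 0x29a0da27732e84e8d534d84]] (.half 52 59 54 [ce 1 136 5 15 0x70846e3969580cf4bda] (ce (-2) 136 5 15 0x1489cbdffe384795bd6) (.fin 52 59 60 [[ce 1 136 4 15 0x46c3482e240e22e]] (.newt 64 [[ce (-2) 136 5 15 0x694eb6149343dc953dc, ce 1 136 3 14 0x12c26b82022]] (.set 63 [[]] (.half 52 61 55 [ce 0 136 5 15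 0x33982c286d5804728da] (ce (-1) 136 5 15 0x350548d67e5acf93bde) (.fin 52 61 65 [[ce 0 136 4 15 0x4e8bc026248eaae]] (.newt 69 [[ce (-2) 136 5 15 0x6b5630251f21cc113c4, ce 1 136 3 15 0x116c26b82022]] (.set 68 [[]] (.half 52 66 54 [ce 0 136 5 15 0x628cac0927591410bc2] (ce (-1) 136 5 15 0x6489f9fefa0a5bb7a4a) (.fin 52 66 70 [[ce 0 136 4 15 0x4ecb00e2ac0aaae]] (.newt 74 [[ce 0 136 5 15 0x695a3334d370d4d51d8, ce (-1) 136 3 15 0x1b2c063a2022]] (.set 73 [[]] (.half 52 71 55 [ce (-1) 136 5 15 0x228e7d2ca2180455b5e] (ce 0 136 5 15 0x7e5b997e1c6a93501d0) (.fin 52 71 75 [[ce (-1) 136 4 14 0x2630e6c648622e]] (.newt 79 [[ce 0 136 5 15 0x7a94b1709378df3399d, ce (-1) 136 3 15 0x1829226b6402]] (.set 78 [[]] (.tr 76 [[ce 0 136 5 15 0x199b925041699506949]] (.half 52 80 54 [ce 0 136 5 15 0xe6e7b5bce3d6996f9f] (ce 0 136 5 15 0x5c035cd15a327a3271f) (.fin 52 80 81 [[ce 0 136 4 15 0xdfe5f5ca5f325c3]] (.newt 85 [[ce 2 136 5 15 0x16fb820c9c1b4720dcf, ce (-3) 136 3 15 0x12c7009841a4]]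 (.set 84 [[]] (.edead 52 82 55 [false, false, false, false, false, false, false, false, false, false, false, false] [ce (-1) 136 5 15 0x1de2d10299e55caa3fd])))))))))))))))))))))))))))))))))) (.set 41 [[ce 0 136 7 11 0xc00000001c000000051]] (.oroot 42 [[]] [(ce 0 136 6 12 0xa80000035000000100, ce (-2) 136 7 11 0xc00000002c000000011)] (.set 44 [[ce 0 136 7 15 0xd3f1bdd0330ce09f004ec6166b]] (.set 45 [[]] (.yrt 46 [] (ce 2 136 5 15 0x39fbfbc029e963c735f) (.split 40 (.set 41 [[ce 0 136 8 11 0x3000000000b80000000051]] (.oroot 42 [[]] [(ce 0 136 8 12 0xaa00000000b5000000008400, ce (-2) 136 8 11 0xf000000000d80000000011)] (.set 44 [[ce 0 136 8 15 0x34fe9beec0e60c70a7600476982ceb]] (.set 45 [[]] (.newt 57 [[ce 2 136 5 15 0x4977bdc1e19be3010c7, ce (-3) 136 3 15 0x112fa3b09093]] (.add 57 53 false [[ce (-5) 136 6 15 0x7623e3910e98c193b0ca9c]] (.half 52 59 54 [ce 1 136 5 15 0x2288cc19673b14f09da] (ce (-2) 136 5 15 0x4f83da4250094d76a5e) (.fin 52 59 60 [[ce 1 136 4 14 0x209c0e6648aee2]]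 (.newt 64 [[ce (-2) 136 5 15 0xb56b0159343d4953dc, ce 1 136 3 15 0x132c26b82022]] (.set 63 [[]] (.half 52 61 55 [ce 0 136 5 15 0x619c8a086b3b0c76ada] (ce (-1) 136 5 15 0x6d075d6ad828c570856) (.fin 52 61 65 [[ce 0 136 4 14 0xa4148ee640a662]] (.newt 69 [[ce (-2) 136 5 15 0x95e32241f21c4113c4, ce 1 136 3 14 0x36c26b82022]] (.set 68 [[]] (.half 52 66 54 [ce 0 136 5 15 0x50900a2925381c149c2] (ce (-1) 136 5 15 0x1c8b686258394954bda) (.fin 52 66 70 [[ce 0 136 4 15 0x8a010822ec8e662]] (.newt 74 [[ce 0 136 5 15 0xb423535d370ccd51d8, ce (-1) 136 3 15 0x192c063a2022]] (.set 73 [[]] (.half 52 71 55 [ce (-1) 136 5 15 0x338adb1c2c381c1595e] (ce 0 136 5 15 0x3cd71d7e56290fd60dc) (.fin 52 71 75 [[ce (-1) 136 4 15 0x4aaf0ee8e40622e]] (.newt 79 [[ce 0 136 5 15 0x33d46444e83281c3951, ce (-1) 136 3 15 0x86926b92c06]] (.set 78 [[]] (.half 52 76 54 [ce 0 136 5 15 0x3c2e0962880fe5d0f13] (ce 0 136 5 15 0x3f4f89e992726273487) (.fin 52 76 80 [[ce 0 136 4 15 0x51eb7d0a9372d8f]] (.newt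 84 [[ce 2 136 5 15 0x2d7ee719440f1c52c1b, ce (-3) 136 3 15 0x11cb008840a4]] (.set 83 [[]] (.edead 52 81 55 [false, false, false, false, false, false, false, false, false, false, false, false] [ce (-1) 136 5 15 0x20b3106958e80d26cf7]))))))))))))))))))))))))))) (.set 41 [[ce 0 136 8 11 0x10000000002800000000f1]] (.oroot 42 [[]] [(ce 0 136 8 12 0xba0000000055000000008400, ce (-2) 136 8 11 0x5000000000880000000031)] (.set 44 [[ce 0 136 8 15 0x34fe1b5e40e6acf007200476d82c6b]] (.set 45 [[]] (.newt 57 [[ce 2 136 5 15 0x49677dc1e1dbe3852d7, ce (-3) 136 3 15 0x1127a3b09093]] (.add 57 53 false [[ce (-5) 136 6 15 0x3363f60d50679cf8f73cc8c]] (.half 52 59 54 [ce 1 136 5 15 0x43882c18e75b1436ac2] (ce (-2) 136 5 15 0x7d87fb6a142b4930b4e) r0_1)))))))))))))))))) r0_2))))) (.set 41 [[ce 0 136 5 6 0x3c000015]] (.oroot 42 [[]] [(ce 0 136 4 12 0x400009000040, ce (-2) 136 5 11 0x2000000c000015)] (.dead 43 56 [[]] [] [ce 0 136 5 15 0x6f59bc49c5c0f1c00cf])))))) (.set 41 [[ce 0 136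 4 11 0x5000090000d]] (.oroot 42 [[]] [(ce 0 136 4 12 0xd00005000040, ce (-2) 136 4 11 0xb0000d00003)] (.dead 43 56 [[]] [] [ce 0 136 4 15 0x19b4f1faaf9eea7]))))))))))))))))))))))))))))))))))))))

theorem r0 : run FDN1.ds FDN1.es [[ce 0 136 64 1 0xf0f0f0f0f0f0f0f1]] vs.length (fullH 10 vs (M 0 0) A) r0_0 = true := by
  decide +kernel

theorem relT {K : Type} [Field K] [NumberField K] {a : K} {pl : List (Place K)} {ph : List (K →+* ℝ)}
    {w : List (IsDedekindDomain.HeightOneSpectrum (NumberField.RingOfIntegers K))}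
    (hP : Pack K FDN1 a pl ph w) : (2 * cval a vs 11) = ((a * ((((a) ^ 2)) ^ 2)) + 2) := by
  have h : ((((2 : ℤ) : K) * cval a vs 11) + (-(((cval a vs 0 * ((((cval a vs 0) ^ 2)) ^ 2)) + ((2 : ℤ) : K))))) = 0 :=
    hP.rel vs (.add (.mul (.num 2) (.var 11)) (.neg (.add (.mul (.var 0) (.sq (.sq (.var 0)))) (.num 2)))) (by decide +kernel)
  have h0 : cval a vs 0 = a := by simp [cval, vs, ev]
  try rw [h0] at h
  try push_cast at h
  linear_combination h

theorem relA {K : Type} [Field K] [NumberField K] {a : K} {pl : List (Place K)} {ph : List (K →+* ℝ)}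
    {w : List (IsDedekindDomain.HeightOneSpectrum (NumberField.RingOfIntegers K))}
    (hP : Pack K FDN1 a pl ph w) : cval a vs 12 = (2 * cval a vs 34) := by
  have h : (cval a vs 12 + (-((((2 : ℤ) : K) * cval a vs 34)))) = 0 :=
    hP.rel vs (.add (.var 12) (.neg (.mul (.num 2) (.var 34)))) (by decide +kernel)
  have h0 : cval a vs 0 = a := by simp [cval, vs, ev]
  try rw [h0] at h
  try push_cast at h
  linear_combination h

theorem relB {K : Type} [Field K] [NumberField K] {a : K} {pl : List (Place K)} {ph : List (K →+* ℝ)}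
    {w : List (IsDedekindDomain.HeightOneSpectrum (NumberField.RingOfIntegers K))}
    (hP : Pack K FDN1 a pl ph w) : (5 * cval a vs 13) = ((cval a vs 34) ^ 2) := by
  have h : ((((5 : ℤ) : K) * cval a vs 13) + (-(((cval a vs 34) ^ 2)))) = 0 :=
    hP.rel vs (.add (.mul (.num 5) (.var 13)) (.neg (.sq (.var 34)))) (by decide +kernel)
  have h0 : cval a vs 0 = a := by simp [cval, vs, ev]
  try rw [h0] at h
  try push_cast at h
  linear_combination h

theorem relL {K : Type} [Field K] [NumberField K] {a : K} {pl : List (Place K)} {ph : List (K →+* ℝ)}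
    {w : List (IsDedekindDomain.HeightOneSpectrum (NumberField.RingOfIntegers K))}
    (hP : Pack K FDN1 a pl ph w) : (5 * cval a vs 33) = (3 * cval a vs 34) := by
  have h : ((((5 : ℤ) : K) * cval a vs 33) + (-((((3 : ℤ) : K) * cval a vs 34)))) = 0 :=
    hP.rel vs (.add (.mul (.num 5) (.var 33)) (.neg (.mul (.num 3) (.var 34)))) (by decide +kernel)
  have h0 : cval a vs 0 = a := by simp [cval, vs, ev]
  try rw [h0] at h
  try push_cast at h
  linear_combination h

theorem relG {K : Type} [Field K] [NumberField K] {a : K} {pl : List (Place K)} {ph : List (K →+* ℝ)}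
    {w : List (IsDedekindDomain.HeightOneSpectrum (NumberField.RingOfIntegers K))}
    (hP : Pack K FDN1 a pl ph w) : (cval a vs 38 * (5 + ((-4) * cval a vs 11))) = (5 - ((-4) * cval a vs 11)) := by
  have h : ((cval a vs 38 * (((5 : ℤ) : K) + (((-4 : ℤ) : K) * cval a vs 11))) + (-((((5 : ℤ) : K) + (-((((-4 : ℤ) : K) * cval a vs 11))))))) = 0 :=
    hP.rel vs (.add (.mul (.var 38) (.add (.num 5) (.mul (.num (-4)) (.var 11)))) (.neg (.add (.num 5) (.neg (.mul (.num (-4)) (.var 11)))))) (by decide +kernel)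
  have h0 : cval a vs 0 = a := by simp [cval, vs, ev]
  try rw [h0] at h
  try push_cast at h
  linear_combination h

theorem relX {K : Type} [Field K] [NumberField K] {a : K} {pl : List (Place K)} {ph : List (K →+* ℝ)}
    {w : List (IsDedekindDomain.HeightOneSpectrum (NumberField.RingOfIntegers K))}
    (hP : Pack K FDN1 a pl ph w) : (cval a vs 37 * ((((cval a vs 37) ^ 2)) ^ 2)) = (1 + (3 * ((cval a vs 38) ^ 2))) := by
  have h : ((cval a vs 37 * ((((cval a vs 37) ^ 2)) ^ 2)) + (-((((1 : ℤ) : K) + (((3 : ℤ) : K) * ((cval a vs 38) ^ 2)))))) = 0 :=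
    hP.rel vs (.add (.mul (.var 37) (.sq (.sq (.var 37)))) (.neg (.add (.num 1) (.mul (.num 3) (.sq (.var 38)))))) (by decide +kernel)
  have h0 : cval a vs 0 = a := by simp [cval, vs, ev]
  try rw [h0] at h
  try push_cast at h
  linear_combination h

theorem relU {K : Type} [Field K] [NumberField K] {a : K} {pl : List (Place K)} {ph : List (K →+* ℝ)}
    {w : List (IsDedekindDomain.HeightOneSpectrum (NumberField.RingOfIntegers K))}
    (hP : Pack K FDN1 a pl ph w) : (cval a vs 39 * (cval a vs 37 - 1)) = (cval a vs 37 + 1) := by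
  have h : ((cval a vs 39 * (cval a vs 37 + (-(((1 : ℤ) : K))))) + (-((cval a vs 37 + ((1 : ℤ) : K))))) = 0 :=
    hP.rel vs (.add (.mul (.var 39) (.add (.var 37) (.neg (.num 1)))) (.neg (.add (.var 37) (.num 1)))) (by decide +kernel)
  have h0 : cval a vs 0 = a := by simp [cval, vs, ev]
  try rw [h0] at h
  try push_cast at h
  linear_combination h

theorem relx {K : Type} [Field K] [NumberField K] {a : K} {pl : List (Place K)} {ph : List (K →+* ℝ)}
    {w : List (IsDedekindDomain.HeightOneSpectrum (NumberField.RingOfIntegers K))}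
    (hP : Pack K FDN1 a pl ph w) : cval a vs 35 = (cval a vs 34 * ((cval a vs 39) ^ 2)) := by
  have h : (cval a vs 35 + (-((cval a vs 34 * ((cval a vs 39) ^ 2))))) = 0 :=
    hP.rel vs (.add (.var 35) (.neg (.mul (.var 34) (.sq (.var 39))))) (by decide +kernel)
  have h0 : cval a vs 0 = a := by simp [cval, vs, ev]
  try rw [h0] at h
  try push_cast at h
  linear_combination h

theorem core {K : Type} [Field K] [NumberField K] {a : K} {pl : List (Place K)} {ph : List (K →+* ℝ)}
    {w : List (IsDedekindDomain.HeightOneSpectrum (NumberField.RingOfIntegers K))}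
    (hP : Pack K FDN1 a pl ph w) {G : Prop} (t g X u x y dG dX du dx : K)
    (hdisc : Q2 0 (t - ((0 : ℤ) : K)))
    (hG : g = ((2 * ((1 + (t * cval a vs 11)))⁻¹) - 1))
    (hX : X ^ 5 = (1 + (3 * ((g) ^ 2))))
    (hcls : IsSquare ((X - 1) * cval a vs 33))
    (hu : u = (1 + (2 * ((X - 1))⁻¹)))
    (hx : x = (cval a vs 34 * ((u) ^ 2)))
    (hon : On (cval a vs 12) (cval a vs 13) x y)
    (hdG : ((1 + (t * cval a vs 11)) * (5 + ((-4) * cval a vs 11))) * dG = ((-2) * cval a vs 11))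
    (hdX : (((((X) ^ 2)) ^ 2) + (cval a vs 37 * ((X * ((X) ^ 2)) + (cval a vs 37 * (((X) ^ 2) + (cval a vs 37 * (X + cval a vs 37))))))) * dX = (3 * ((g + cval a vs 38) * dG)))
    (hdu : ((X - 1) * (cval a vs 37 - 1)) * du = ((-2) * dX))
    (hdx : dx = (cval a vs 34 * ((u + cval a vs 39) * du)))
    (hdqn : (5 * t - (-4)) ≠ 0) (hdq : x - cval a vs 35 = (5 * t - (-4)) * dx) :
    G := by
  refine hP.cover (fr := [t, g, X, u, x, y, dG, dX, du, dx]) (M := M) (cs := [[ce 0 136 64 1 0xf0f0f0f0f0f0f0f1]]) rfl auto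
    (l := [(0, 0)]) (by decide) ?_ hdisc fun tt kk hq => ?_
  · exact List.forall_mem_cons.2 ⟨⟨_, r0⟩, fun _ h => absurd h List.not_mem_nil⟩
  · refine List.forall_mem_cons.2 ⟨?_, List.forall_mem_cons.2 ⟨?_, List.forall_mem_cons.2 ⟨?_, List.forall_mem_cons.2 ⟨?_, List.forall_mem_cons.2 ⟨?_, List.forall_mem_cons.2 ⟨?_, List.forall_mem_cons.2 ⟨?_, List.forall_mem_cons.2 ⟨?_, List.forall_mem_cons.2 ⟨?_, List.forall_mem_cons.2 ⟨?_, List.forall_mem_cons.2 ⟨?_, List.forall_mem_cons.2 ⟨?_, fun _ h => absurd h List.not_mem_nil⟩⟩⟩⟩⟩⟩⟩⟩⟩⟩⟩⟩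
    · exact hq
    · show g = ((((2 : ℤ) : K) * ((((1 : ℤ) : K) + (t * cval a vs 11)))⁻¹) + (-(((1 : ℤ) : K))))
      try push_cast
      linear_combination hG
    · show X ^ 5 = (((1 : ℤ) : K) + (((3 : ℤ) : K) * ((g) ^ 2)))
      try push_cast
      linear_combination hX
    · exact span_of_isSquare (x := ((X + (-(((1 : ℤ) : K)))) * cval a vs 33)) ((by push_cast; ring : ((X + (-(((1 : ℤ) : K)))) * cval a vs 33) = ((X - 1) * cval a vs 33)) ▸ hcls)
    · show u = (((1 : ℤ) : K) + (((2 : ℤ) : K) * ((X + (-(((1 : ℤ) : K)))))⁻¹))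
      try push_cast
      linear_combination hu
    · show x = (cval a vs 34 * ((u) ^ 2))
      try push_cast
      linear_combination hx
    · exact hon
    · show ((((1 : ℤ) : K) + (t * cval a vs 11)) * (((5 : ℤ) : K) + (((-4 : ℤ) : K) * cval a vs 11))) * dG = (((-2 : ℤ) : K) * cval a vs 11)
      try push_cast
      linear_combination hdG
    · show (((((X) ^ 2)) ^ 2) + (cval a vs 37 * ((X * ((X) ^ 2)) + (cval a vs 37 * (((X) ^ 2) + (cval a vs 37 * (X + cval a vs 37))))))) * dX = (((3 : ℤ) : K) * ((g + cval a vs 38) * dG))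
      try push_cast
      linear_combination hdX
    · show ((X + (-(((1 : ℤ) : K)))) * (cval a vs 37 + (-(((1 : ℤ) : K))))) * du = (((-2 : ℤ) : K) * dX)
      try push_cast
      linear_combination hdu
    · show dx = (cval a vs 34 * ((u + cval a vs 39) * du))
      try push_cast
      linear_combination hdx
    · show (((5 : ℤ) : K) * t - ((-4 : ℤ) : K)) ≠ 0 ∧ x - cval a vs 35 = (((5 : ℤ) : K) * t - ((-4 : ℤ) : K)) * dx
      try push_cast
      exact ⟨by simpa using hdqn, by linear_combination hdq⟩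

end Pool.Agent.Lib.MP_ab8df0_nt.T.B61b
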